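import Pool.Agent.H705.GB.Stm

set_option autoImplicit false

namespace Pool.Agent.H894.GB.LLN

open MeasureTheory ProbabilityTheory Finset Filter Topology
open Pool.Agent.H705.GB
open Pool.Agent.H705.TR (P_GEN)

/-- Interpolation between the fourth powers. -/
theorem interp (u : ℕ → ℝ) (θ : ℝ) (hm : Monotone u)
    (h : Tendsto (fun k : ℕ => u (k ^ 4) / ((k ^ 4 : ℕ) : ℝ)) atTop (𝓝 θ)) :
    Tendsto (fun n : ℕ => u n / n) atTop (𝓝 θ) := by
  apply tendsto_div_of_monotone_of_exists_subseq_tendsto_div u θ hm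
  intro a ha
  refine ⟨fun k => k ^ 4, ?_, ?_, h⟩
  · have h1 : Tendsto (fun k : ℕ => (1 + 1 / (k : ℝ)) ^ 4) atTop (𝓝 ((1 + 0) ^ 4)) :=
      (tendsto_const_nhds.add tendsto_one_div_atTop_nhds_zero_nat).pow 4
    have h2 : ∀ᶠ k : ℕ in atTop, (1 + 1 / (k : ℝ)) ^ 4 < a :=
      h1.eventually_lt_const (by simpa using ha)
    filter_upwards [h2, eventually_gt_atTop 0] with k hk hk0
    have hk0' : (0:ℝ) < k := by exact_mod_cast hk0
    push_cast
    have e : ((k:ℝ) + 1) ^ 4 = (1 + 1 / (k : ℝ)) ^ 4 * (k:ℝ) ^ 4 := by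
      rw [← mul_pow]; congr 1; field_simp
    rw [e]
    exact mul_le_mul_of_nonneg_right hk.le (by positivity)
  · exact tendsto_pow_atTop (by norm_num)

theorem pairs (x : ℕ) (c : ℕ → ℕ → ℝ) (h1 : ∀ N N', c N N' ≤ 1)
    (h0 : ∀ N N', N < x → N' < x →
      (N + (2 * Nat.sqrt x + 12) < N' ∨ N' + (2 * Nat.sqrt x + 12) < N) → c N N' = 0) :
    ∑ N ∈ range x, ∑ N' ∈ range x, c N N' ≤ x * (4 * Nat.sqrt x + 25) := by
  have key : ∀ N ∈ range x, ∑ N' ∈ range x, c N N' ≤ 4 * Nat.sqrt x + 25 := by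
    intro N hN
    have hN' := mem_range.1 hN
    calc ∑ N' ∈ range x, c N N'
        ≤ ∑ N' ∈ range x, (if N' ∈ Icc (N - (2 * Nat.sqrt x + 12)) (N + (2 * Nat.sqrt x + 12)) then (1:ℝ)
            else 0) := by
          apply sum_le_sum
          intro N' hN'2
          by_cases h : N' ∈ Icc (N - (2 * Nat.sqrt x + 12)) (N + (2 * Nat.sqrt x + 12))
          · rw [if_pos h]; exact h1 N N'
          · rw [if_neg h]
            apply le_of_eq
            apply h0 N N' hN' (mem_range.1 hN'2)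
            rw [mem_Icc] at h
            omega
      _ = (((range x).filter (fun N' =>
            N' ∈ Icc (N - (2 * Nat.sqrt x + 12)) (N + (2 * Nat.sqrt x + 12)))).card : ℝ) := by
          rw [sum_ite, sum_const_zero, add_zero, sum_const, nsmul_eq_mul, mul_one]
      _ ≤ ((Icc (N - (2 * Nat.sqrt x + 12)) (N + (2 * Nat.sqrt x + 12))).card : ℝ) := by
          have : (range x).filter (fun N' =>
              N' ∈ Icc (N - (2 * Nat.sqrt x + 12)) (N + (2 * Nat.sqrt x + 12))) ⊆
              Icc (N - (2 * Nat.sqrt x + 12)) (N + (2 * Nat.sqrt x + 12)) := by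
            intro a ha
            exact (mem_filter.1 ha).2
          exact_mod_cast card_le_card this
      _ ≤ ((4 * Nat.sqrt x + 25 : ℕ) : ℝ) := by
          rw [Nat.card_Icc]
          exact_mod_cast (by omega)
      _ = _ := by push_cast; ring
  calc ∑ N ∈ range x, ∑ N' ∈ range x, c N N' ≤ ∑ _N ∈ range x, (4 * (Nat.sqrt x : ℝ) + 25) :=
        sum_le_sum key
    _ = _ := by rw [sum_const, card_range, nsmul_eq_mul]

section

variable {Ω : Type} [MeasurableSpace Ω] {P : Measure Ω} [IsProbabilityMeasure P]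

/-- The centred indicator. -/
noncomputable def Y (P : Measure Ω) (E : Set Ω) (ω : Ω) : ℝ :=
  E.indicator (fun _ => (1:ℝ)) ω - P.real E

theorem Y_meas {E : Set Ω} (hE : MeasurableSet E) : Measurable (Y P E) :=
  (measurable_const.indicator hE).sub measurable_const

theorem Y_bound (E : Set Ω) (ω : Ω) : |Y P E ω| ≤ 1 := by
  have h0 : 0 ≤ P.real E := measureReal_nonneg
  have h1 : P.real E ≤ 1 := measureReal_le_one
  unfold Y
  by_cases h : ω ∈ E
  · rw [Set.indicator_of_mem h, abs_le]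
    constructor <;> linarith
  · rw [Set.indicator_of_notMem h, abs_le]
    constructor <;> linarith

theorem Y_mul_int {E E' : Set Ω} (hE : MeasurableSet E) (hE' : MeasurableSet E') :
    Integrable (fun ω => Y P E ω * Y P E' ω) P := by
  apply Integrable.of_bound ((Y_meas hE).mul (Y_meas hE')).aestronglyMeasurable 1
  refine ae_of_all _ fun ω => ?_
  have h := mul_le_one₀ (Y_bound (P := P) E ω) (abs_nonneg _) (Y_bound (P := P) E' ω)
  rw [← abs_mul] at h
  exact h

theorem cov_le {E E' : Set Ω} (hE : MeasurableSet E) (hE' : MeasurableSet E') :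
    ∫ ω, Y P E ω * Y P E' ω ∂P ≤ 1 := by
  have h := integral_mono (Y_mul_int hE hE') (integrable_const (1:ℝ)) (μ := P) (fun ω => by
    have h1 := mul_le_one₀ (Y_bound (P := P) E ω) (abs_nonneg _) (Y_bound (P := P) E' ω)
    rw [← abs_mul] at h1
    exact (le_abs_self _).trans h1)
  refine h.trans (le_of_eq ?_)
  rw [integral_const, probReal_univ, one_smul]

theorem cov_eq {E E' : Set Ω} (hE : MeasurableSet E) (hE' : MeasurableSet E') :
    ∫ ω, Y P E ω * Y P E' ω ∂P = P.real (E ∩ E') - P.real E * P.real E' := by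
  have i1 : Integrable (E.indicator (fun _ => (1:ℝ))) P := (integrable_const 1).indicator hE
  have i2 : Integrable (E'.indicator (fun _ => (1:ℝ))) P := (integrable_const 1).indicator hE'
  have i3 : Integrable ((E ∩ E').indicator (fun _ => (1:ℝ))) P :=
    (integrable_const 1).indicator (hE.inter hE')
  have e : ∀ ω, Y P E ω * Y P E' ω =
      (E ∩ E').indicator (fun _ => (1:ℝ)) ω - P.real E * E'.indicator (fun _ => (1:ℝ)) ω -
        P.real E' * E.indicator (fun _ => (1:ℝ)) ω + P.real E * P.real E' := by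
    intro ω
    have : (E ∩ E').indicator (fun _ => (1:ℝ)) ω =
        E.indicator (fun _ => (1:ℝ)) ω * E'.indicator (fun _ => (1:ℝ)) ω := by
      by_cases h : ω ∈ E <;> by_cases h' : ω ∈ E' <;> simp [h, h']
    rw [this]
    unfold Y
    ring
  have e2 : ∫ ω, Y P E ω * Y P E' ω ∂P = ∫ ω, ((E ∩ E').indicator (fun _ => (1:ℝ)) ω -
      P.real E * E'.indicator (fun _ => (1:ℝ)) ω -
        P.real E' * E.indicator (fun _ => (1:ℝ)) ω + P.real E * P.real E') ∂P :=
    integral_congr_ae (ae_of_all _ e)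
  have i4 : Integrable (fun ω => P.real E * E'.indicator (fun _ => (1:ℝ)) ω) P := i2.const_mul _
  have i5 : Integrable (fun ω => P.real E' * E.indicator (fun _ => (1:ℝ)) ω) P := i1.const_mul _
  have i6 : Integrable (fun ω => (E ∩ E').indicator (fun _ => (1:ℝ)) ω -
      P.real E * E'.indicator (fun _ => (1:ℝ)) ω) P := i3.sub i4
  have i7 : Integrable (fun ω => (E ∩ E').indicator (fun _ => (1:ℝ)) ω -
      P.real E * E'.indicator (fun _ => (1:ℝ)) ω -
        P.real E' * E.indicator (fun _ => (1:ℝ)) ω) P := i6.sub i5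
  rw [e2, integral_add i7 (integrable_const _), integral_sub i6 i5, integral_sub i3 i4,
    integral_const_mul, integral_const_mul, integral_indicator_const _ (hE.inter hE'),
    integral_indicator_const _ hE', integral_indicator_const _ hE, integral_const, probReal_univ]
  simp only [smul_eq_mul, mul_one, one_mul]
  ring

/-- The variance. -/
theorem var_le (E : ℕ → Set Ω) (hE : ∀ N, MeasurableSet (E N))
    (hind : ∀ N N', N + (2 * Nat.sqrt N' + 12) < N' →
      P.real (E N ∩ E N') = P.real (E N) * P.real (E N')) (x : ℕ) :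
    ∫ ω, (∑ N ∈ range x, Y P (E N) ω) ^ 2 ∂P ≤ x * (4 * Nat.sqrt x + 25) := by
  have e : ∫ ω, (∑ N ∈ range x, Y P (E N) ω) ^ 2 ∂P =
      ∑ N ∈ range x, ∑ N' ∈ range x, ∫ ω, Y P (E N) ω * Y P (E N') ω ∂P := by
    have e1 : ∀ ω, (∑ N ∈ range x, Y P (E N) ω) ^ 2 =
        ∑ N ∈ range x, ∑ N' ∈ range x, Y P (E N) ω * Y P (E N') ω := by
      intro ω
      rw [sq, sum_mul_sum]
    have e2 : ∫ ω, (∑ N ∈ range x, Y P (E N) ω) ^ 2 ∂P =
        ∫ ω, ∑ N ∈ range x, ∑ N' ∈ range x, Y P (E N) ω * Y P (E N') ω ∂P :=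
      integral_congr_ae (ae_of_all _ e1)
    rw [e2, integral_finsetSum _ (fun N _ => integrable_finsetSum _
      (fun N' _ => Y_mul_int (hE N) (hE N')))]
    refine sum_congr rfl fun N _ => ?_
    rw [integral_finsetSum _ (fun N' _ => Y_mul_int (hE N) (hE N'))]
  rw [e]
  apply pairs
  · intro N N'
    exact cov_le (hE N) (hE N')
  · intro N N' hN hN' h
    rw [cov_eq (hE N) (hE N')]
    rcases h with h | h
    · rw [hind N N' (by have := Nat.sqrt_le_sqrt hN'.le; omega), sub_self]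
    · rw [Set.inter_comm, hind N' N (by have := Nat.sqrt_le_sqrt hN.le; omega), mul_comm, sub_self]

/-- Almost sure convergence to zero. -/
theorem as_zero (Z : ℕ → Ω → ℝ) (hm : ∀ k, Measurable (Z k))
    (hi : ∀ k, Integrable (fun ω => Z k ω ^ 2) P)
    (b : ℕ → ℝ) (hb : Summable b) (h : ∀ k, ∫ ω, Z k ω ^ 2 ∂P ≤ b k) :
    ∀ᵐ ω ∂P, Tendsto (fun k => Z k ω) atTop (𝓝 0) := by
  have h1 : ∫⁻ ω, ∑' k, ENNReal.ofReal (Z k ω ^ 2) ∂P ≠ ⊤ := by
    rw [lintegral_tsum (fun k => ((hm k).pow_const 2).ennreal_ofReal.aemeasurable)]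
    have h2 : ∀ k, ∫⁻ ω, ENNReal.ofReal (Z k ω ^ 2) ∂P ≤ ENNReal.ofReal (b k) := by
      intro k
      rw [← ofReal_integral_eq_lintegral_ofReal (hi k) (ae_of_all _ fun ω => sq_nonneg _)]
      exact ENNReal.ofReal_le_ofReal (h k)
    exact ne_top_of_le_ne_top hb.tsum_ofReal_ne_top (ENNReal.tsum_le_tsum h2)
  have h2 := ae_lt_top (Measurable.ennreal_tsum fun k => ((hm k).pow_const 2).ennreal_ofReal) h1
  filter_upwards [h2] with ω hω
  have h3 := ENNReal.tendsto_atTop_zero_of_tsum_ne_top hω.ne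
  have h4 : Tendsto (fun k => (ENNReal.ofReal (Z k ω ^ 2)).toReal) atTop (𝓝 0) := by
    have h4 := (ENNReal.tendsto_toReal ENNReal.zero_ne_top).comp h3
    rw [ENNReal.toReal_zero] at h4
    exact h4
  have h5 : Tendsto (fun k => Z k ω ^ 2) atTop (𝓝 0) :=
    h4.congr fun k => ENNReal.toReal_ofReal (sq_nonneg _)
  have h6 : Tendsto (fun k => √(Z k ω ^ 2)) atTop (𝓝 (√0)) :=
    (Real.continuous_sqrt.tendsto 0).comp h5
  rw [Real.sqrt_zero] at h6
  have h7 : Tendsto (fun k => |Z k ω|) atTop (𝓝 0) := h6.congr fun k => Real.sqrt_sq_eq_abs _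
  exact (tendsto_zero_iff_abs_tendsto_zero _).2 h7

/-- The law of large numbers for locally dependent events. -/
theorem lln (E : ℕ → Set Ω) (hE : ∀ N, MeasurableSet (E N))
    (hind : ∀ N N', N + (2 * Nat.sqrt N' + 12) < N' →
      P.real (E N ∩ E N') = P.real (E N) * P.real (E N')) (θ : ℝ)
    (hθ : Tendsto (fun N => P.real (E N)) atTop (𝓝 θ)) :
    ∀ᵐ ω ∂P, Tendsto (fun x : ℕ => (∑ N ∈ range x, (E N).indicator (fun _ => (1:ℝ)) ω) / x)
      atTop (𝓝 θ) := by
  obtain ⟨Z, hZ⟩ : ∃ Z : ℕ → Ω → ℝ, Z = fun k ω =>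
      (∑ N ∈ range (k ^ 4), Y P (E N) ω) / ((k ^ 4 : ℕ) : ℝ) := ⟨_, rfl⟩
  have hZm : ∀ k, Measurable (Z k) := by
    intro k
    rw [hZ]
    exact (Finset.measurable_sum _ fun N _ => Y_meas (hE N)).div_const _
  have hZi : ∀ k, Integrable (fun ω => Z k ω ^ 2) P := by
    intro k
    apply Integrable.of_bound ((hZm k).pow_const 2).aestronglyMeasurable 1
    refine ae_of_all _ fun ω => ?_
    have h1 : |∑ N ∈ range (k ^ 4), Y P (E N) ω| ≤ ((k ^ 4 : ℕ) : ℝ) := by
      refine (abs_sum_le_sum_abs _ _).trans ?_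
      calc ∑ N ∈ range (k ^ 4), |Y P (E N) ω| ≤ ∑ _N ∈ range (k ^ 4), (1:ℝ) :=
            sum_le_sum fun N _ => Y_bound (E N) ω
        _ = _ := by rw [sum_const, card_range, nsmul_eq_mul, mul_one]
    have h2 : |Z k ω| ≤ 1 := by
      rw [hZ]
      simp only
      rw [abs_div, Nat.abs_cast]
      exact div_le_one_of_le₀ h1 (Nat.cast_nonneg _)
    rw [Real.norm_eq_abs, abs_pow]
    exact pow_le_one₀ (abs_nonneg _) h2
  have hZb : ∀ k, ∫ ω, Z k ω ^ 2 ∂P ≤ 29 * (1 / (k : ℝ) ^ 2) := by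
    intro k
    rcases Nat.eq_zero_or_pos k with hk | hk
    · have h0 : ∀ ω, Z k ω ^ 2 = 0 := by
        intro ω
        rw [hZ, hk]
        simp
      have h1 : ∫ ω, Z k ω ^ 2 ∂P = ∫ ω, (0:ℝ) ∂P := integral_congr_ae (ae_of_all _ h0)
      rw [h1, integral_zero, hk]
      simp
    · have hk0 : (0:ℝ) < k := by exact_mod_cast hk
      have hk1 : (1:ℝ) ≤ k := by exact_mod_cast hk
      have h1 : ∫ ω, Z k ω ^ 2 ∂P =
          (∫ ω, (∑ N ∈ range (k ^ 4), Y P (E N) ω) ^ 2 ∂P) / ((k:ℝ) ^ 4) ^ 2 := by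
        rw [← integral_div]
        refine integral_congr_ae (ae_of_all _ fun ω => ?_)
        rw [hZ]
        simp only
        rw [div_pow]
        push_cast
        rfl
      have h2 := var_le (P := P) E hE hind (k ^ 4)
      have h3 : Nat.sqrt (k ^ 4) = k ^ 2 := by
        have : k ^ 4 = k ^ 2 * k ^ 2 := by ring
        rw [this, Nat.sqrt_eq]
      rw [h3] at h2
      push_cast at h2
      rw [h1, div_le_iff₀ (by positivity)]
      refine h2.trans ?_
      have e : 29 * (1 / (k:ℝ) ^ 2) * ((k:ℝ) ^ 4) ^ 2 = (k:ℝ) ^ 4 * (29 * (k:ℝ) ^ 2) := by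
        field_simp
      rw [e]
      apply mul_le_mul_of_nonneg_left _ (by positivity)
      nlinarith
  have hsum : Summable (fun k : ℕ => 29 * (1 / (k : ℝ) ^ 2)) :=
    (Real.summable_one_div_nat_pow.mpr (by norm_num)).mul_left 29
  have has := as_zero Z hZm hZi _ hsum hZb
  filter_upwards [has] with ω hω
  apply interp (fun x => ∑ N ∈ range x, (E N).indicator (fun _ => (1:ℝ)) ω) θ
  · intro a b hab
    apply sum_le_sum_of_subset_of_nonneg (range_mono hab)
    intro N _ _
    exact Set.indicator_nonneg (fun _ _ => zero_le_one) ω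
  · have hces := hθ.cesaro
    have h4 : Tendsto (fun k : ℕ => k ^ 4) atTop atTop := tendsto_pow_atTop (by norm_num)
    have h5 := hces.comp h4
    have h6 := hω.add h5
    rw [zero_add] at h6
    refine h6.congr fun k => ?_
    rw [hZ]
    simp only [Function.comp]
    unfold Y
    rw [sum_sub_distrib]
    rw [sub_div, inv_mul_eq_div, sub_add_cancel]

end

theorem T_LLN (hGEN : P_GEN) : P_LLN := by
  intro Ω _ P X hP hX hI A θ hloc hlim
  obtain ⟨W, hW⟩ : ∃ W : ℕ → Finset ℕ, W = fun N => Icc (N - (Nat.sqrt N + 6)) (N + (Nat.sqrt N + 6)) := ⟨_, rfl⟩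
  have hA : ∀ (N : ℕ) (v w : ℕ → ℕ), (∀ i ∈ W N, v i = w i) → (A N v ↔ A N w) := by
    intro N v w h
    apply hloc N v w
    intro i h1 h2
    apply h
    rw [hW]
    simp only [mem_Icc]
    omega
  have hE : ∀ N, MeasurableSet {ω | A N fun i => X i ω} := by
    intro N
    exact (hGEN Ω P ℕ X hP hX hI (W N) ∅ (disjoint_empty_right _) (A N) (fun _ => True)
      (hA N) (fun _ _ _ => Iff.rfl)).1
  have hind : ∀ N N', N + (2 * Nat.sqrt N' + 12) < N' →
      P.real ({ω | A N fun i => X i ω} ∩ {ω | A N' fun i => X i ω}) =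
        P.real {ω | A N fun i => X i ω} * P.real {ω | A N' fun i => X i ω} := by
    intro N N' h
    have hd : Disjoint (W N) (W N') := by
      rw [Finset.disjoint_left]
      intro i hi hi'
      rw [hW] at hi hi'
      simp only [mem_Icc] at hi hi'
      have hs : Nat.sqrt N ≤ Nat.sqrt N' := Nat.sqrt_le_sqrt (by omega)
      omega
    exact (hGEN Ω P ℕ X hP hX hI (W N) (W N') hd (A N) (A N') (hA N) (hA N')).2.2
  have h := lln (P := P) (fun N => {ω | A N fun i => X i ω}) hE hind θ hlim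
  filter_upwards [h] with ω hω
  refine hω.congr fun x => ?_
  congr 1
  classical
  have e : ∀ N ∈ range x, ({ω | A N fun i => X i ω} : Set Ω).indicator (fun _ => (1:ℝ)) ω =
      if (A N fun i => X i ω) then (1:ℝ) else 0 := by
    intro N _
    rw [Set.indicator_apply]
    rfl
  rw [sum_congr rfl e, sum_ite, sum_const_zero, add_zero, sum_const, nsmul_eq_mul, mul_one]

end Pool.Agent.H894.GB.LLN
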